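import Pool.Agent.R402.HBX.Main
import Pool.Agent.R402.HBX.ULB
import Pool.Agent.R402.HBX.BAIREB
import Pool.Agent.R402.HBX.GEN
import Pool.Agent.R402.HBX.WEAK
import Pool.Agent.R402.HBX.SIG
import Pool.Agent.R402.HBX.DIFF
import Pool.Agent.R402.HBX.HOLIN
import Pool.Agent.R402.HBX.RECT
import Pool.Agent.R402.HBX.RESOLV
import Pool.Agent.R402.HBX.HOLOUT
import Pool.Agent.R402.HBX.LIOU

/-! MP_5ac32f_an: on a reflexive Banach space, if `R` does not commute with `S` but
`R x ∈ {S}' x` for a nonmeagre set of vectors `x`, then `S` has a nontrivial closed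
hyperinvariant subspace. -/

set_option autoImplicit false

namespace Pool.Agent.Results.MP_5ac32f_an.NonmeagreCommutant

theorem result : ∀ (X : Type) [NormedAddCommGroup X] [NormedSpace ℂ X] [CompleteSpace X],
    Function.Surjective (NormedSpace.inclusionInDoubleDual ℂ X) →
    ∀ S R : X →L[ℂ] X, S * R ≠ R * S →
    ¬ IsMeagre {x : X | ∃ B : X →L[ℂ] X, B * S = S * B ∧ B x = R x} →
    ∃ M : Submodule ℂ X, IsClosed (M : Set X) ∧ M ≠ ⊥ ∧ M ≠ ⊤ ∧
      ∀ B : X →L[ℂ] X, B * S = S * B → ∀ x ∈ M, B x ∈ M := by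
  intro X _ _ _ hX S R hne hnm
  exact R402.HB.main_of (R402.HB.baireb_of R402.HB.ulb) (R402.HB.sig_of R402.HB.gen R402.HB.weak)
    (R402.HB.diff_of R402.HB.gen R402.HB.weak) R402.HB.holin
    (R402.HB.holout_of R402.HB.rect (R402.HB.resolv_of R402.HB.rect)) R402.HB.liou
    X hX S R hne hnm

end Pool.Agent.Results.MP_5ac32f_an.NonmeagreCommutant
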