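import Pool.Agent.R276.NC.Fin
import Pool.Agent.R276.NC.Up
import Pool.Agent.R276.NC.Rs
import Pool.Agent.R276.NC.Fat
import Pool.Agent.R276.NC.Pow
import Pool.Agent.R276.CP.Pot
import Pool.Agent.R276.CP.Had

/-!
# MP_5ac32f_an: hyperinvariant subspaces of infinite rank perturbations on Banach spaces

`A` is an operator on a complex Banach space whose spectrum meets an open set `U` in a null set and whose
resolvent is log-integrable on `U`; `K y = ∑ f j (y) x j` with `∑ ‖f j‖² < ∞`, `∑ ‖x j‖² < ∞`, and the sum of the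
integrals over `U` of `log (1 + ‖(z - A)⁻¹ x j‖)` is finite. If `A` has two points in its Weyl spectrum, one of
them in `U` (for example, if the spectrum has two accumulation points in `U`), then for almost every complex
`κ`, for almost every real `κ`, and almost everywhere for all measures with locally bounded logarithmic
potential, `A + κ K` has a nontrivial closed hyperinvariant subspace (`result`, `accumulation`).

`powers`: the conditions hold if the resolvent grows at most like `dist(z, σ(A))^(-k)`, the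
`δ`-neighbourhood of the spectrum has area `O(δ^ε)`, and `∑ ‖x j‖^s < ∞` for some `s ≤ 1` with `s k < ε`.

Proof. For the finite sections `K_n` the determinant `D(κ) = det (1 - κ (f i (R x j)))`, `R = (z - A)⁻¹`, and the
resolvent satisfy by Hadamard's inequality `|D| ≤ ∏ (1 + F |κ| ‖R x j‖)` and
`‖(z - A - κ K_n)⁻¹‖ |D| ≤ F ‖R‖ ∏ (1 + F |κ| ‖R x j‖)`, `F² = 1 + ∑ ‖f i‖²`. As `D(0) = 1`, the integral of
`log⁺ (1/|D|)` against a measure with bounded logarithmic potential is at most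
`C (1 + ∑ log (1 + ‖R x j‖))`. Integration over `U` and Fatou's lemma give the integrability of
`log⁺ ‖(z - A - κ K)⁻¹‖` on `U` for almost every `κ`. The Weyl spectrum is in the spectrum of `A + κ K`, and the
theorem on log-integrable resolvents (starting library, `W610.HY`) applies if the spectrum of `A + κ K` has
two points near the point in `U`; otherwise this point is isolated and a Riesz projection does it.

The parts of the formal proof were written by helpers 276 (statements, Hadamard's inequality, assembly), 515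
(determinants), 139 (resolvents), 422 (potentials), 164 (Fatou), 126 (power growth), after the Hilbert space
case (`Results/MP_5ac32f_an/SchattenCouplings.lean`; helpers 999, 515, 973). `Y271.CO`, `W610.HY`, `Y891.NK`
belong to the starting library.
-/

set_option autoImplicit false

open MeasureTheory Metric Set Filter Topology
open scoped ENNReal NNReal

namespace Pool.Agent.Results.MP_5ac32f_an.NuclearCouplings

/-- The measure `m` has no atoms, and on every disc `|t| < R` it is finite and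
`∫ log⁺ (1 / |t - s|) dm(t)` is bounded in `s ∈ ℂ`. -/
def BoundedPotential (m : Measure ℂ) : Prop :=
  (∀ s : ℂ, m {s} = 0) ∧
  ∀ R : ℝ, m (ball (0:ℂ) R) ≠ ⊤ ∧ ∃ C : ℝ≥0, ∀ s : ℂ,
    ∫⁻ t in ball (0:ℂ) R, ENNReal.ofReal (Real.posLog ‖t - s‖⁻¹) ∂m ≤ C

section Defs

variable {X : Type} [NormedAddCommGroup X] [NormedSpace ℂ X]

/-- `T` has a closed subspace, neither `{0}` nor the whole space, which is invariant under every
bounded operator commuting with `T`. -/
def HasHyperinvariant (T : X →L[ℂ] X) : Prop :=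
  ∃ V : Submodule ℂ X, IsClosed (V : Set X) ∧ V ≠ ⊥ ∧ V ≠ ⊤ ∧
    ∀ Q : X →L[ℂ] X, Q * T = T * Q → ∀ x ∈ V, Q x ∈ V

/-- `K` is the operator `y ↦ ∑ f j (y) x j`, with `∑ ‖f j‖² < ∞` and `∑ ‖x j‖² < ∞` -/
structure Represents (K : X →L[ℂ] X) (f : ℕ → (X →L[ℂ] ℂ)) (x : ℕ → X) : Prop where
  functionals : Summable (fun j => ‖f j‖ ^ 2)
  vectors : Summable (fun j => ‖x j‖ ^ 2)
  sum : ∀ y, HasSum (fun j => f j y • x j) (K y)

/-- The Weyl spectrum: the points which are in the spectrum of all finite rank perturbations. -/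
def weyl [CompleteSpace X] (A : X →L[ℂ] X) : Set ℂ :=
  {c | ∀ L : X →L[ℂ] X, FiniteDimensional ℂ (LinearMap.range (L : X →ₗ[ℂ] X)) →
    c ∈ spectrum ℂ (A + L)}

/-- `A + κ K` has a nontrivial hyperinvariant subspace for almost every coupling `κ`. -/
def GenericallyHyperinvariant (A K : X →L[ℂ] X) : Prop :=
  (∀ m : Measure ℂ, BoundedPotential m → ∀ᵐ κ ∂m, HasHyperinvariant (A + κ • K)) ∧
  (∀ᵐ κ : ℂ, HasHyperinvariant (A + κ • K)) ∧
  (∀ᵐ κ : ℝ, HasHyperinvariant (A + (κ : ℂ) • K))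

end Defs

/-- **Infinite rank perturbations of operators with log-integrable resolvent.** -/
theorem result {X : Type} [NormedAddCommGroup X] [NormedSpace ℂ X] [CompleteSpace X]
    (A K : X →L[ℂ] X) (f : ℕ → (X →L[ℂ] ℂ)) (x : ℕ → X) (hK : Represents K f x)
    {U : Set ℂ} (hU : IsOpen U) (h0 : volume (spectrum ℂ A ∩ U) = 0)
    (hI : IntegrableOn (fun z : ℂ => Real.posLog ‖resolvent A z‖) U)
    (hS : ∑' j, ∫⁻ z in U, ENNReal.ofReal (Real.log (1 + ‖resolvent A z (x j)‖)) ≠ ⊤)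
    (hU1 : (weyl A ∩ U).Nonempty) (hU2 : (weyl A).Nontrivial) :
    GenericallyHyperinvariant A K := by
  have main : ∀ m : Measure ℂ, Pool.Agent.R276.CP.LogBd m →
      ∀ᵐ κ ∂m, HasHyperinvariant (A + κ • K) := fun m hm =>
    Pool.Agent.R276.NC.Fin.hyper (Pool.Agent.R276.NC.Fat.main
      (Pool.Agent.R276.NC.Up.main Pool.Agent.R276.CP.Had.main)
      (Pool.Agent.R276.NC.Rs.main Pool.Agent.R276.CP.Had.main) Pool.Agent.R276.CP.Pot.main)
      A K f x ⟨hK.1, hK.2, hK.3⟩ hU h0 hI hS hU1 hU2 m hm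
  refine ⟨?_, ?_, ?_⟩
  · intro m hm
    refine main m fun R => ?_
    obtain ⟨h0, hm⟩ := hm
    obtain ⟨h1, C, hC⟩ := hm R
    refine ⟨C + (m (ball (0:ℂ) R)).toNNReal, ?_, fun s => ?_⟩
    · rw [ENNReal.coe_add, ENNReal.coe_toNNReal h1]
      exact le_add_self
    · calc ∫⁻ t in ball (0:ℂ) R, Pool.Agent.R276.CP.lm ‖t - s‖ ∂m
          = ∫⁻ t in ball (0:ℂ) R, ENNReal.ofReal (Real.posLog ‖t - s‖⁻¹) ∂m := by
            refine lintegral_congr_ae (ae_restrict_of_ae ?_)
            have h2 : ∀ᵐ t ∂m, t ≠ s := by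
              rw [ae_iff]
              simpa using h0 s
            filter_upwards [h2] with t ht
            unfold Pool.Agent.R276.CP.lm
            rw [if_neg (by simpa [sub_eq_zero] using ht)]
        _ ≤ C := hC s
        _ ≤ _ := by rw [ENNReal.coe_add]; exact le_self_add
  · exact main volume Pool.Agent.Y891.NK.main_vol.1
  · have h := main (Measure.map (fun t : ℝ => (t : ℂ)) volume) Pool.Agent.Y891.NK.main_vol.2
    exact ae_of_ae_map Complex.continuous_ofReal.measurable.aemeasurable h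

/-- The case that the spectrum of `A` has at least two accumulation points in `U`. -/
theorem accumulation {X : Type} [NormedAddCommGroup X] [NormedSpace ℂ X] [CompleteSpace X]
    (A K : X →L[ℂ] X) (f : ℕ → (X →L[ℂ] ℂ)) (x : ℕ → X) (hK : Represents K f x)
    {U : Set ℂ} (hU : IsOpen U) (h0 : volume (spectrum ℂ A ∩ U) = 0)
    (hI : IntegrableOn (fun z : ℂ => Real.posLog ‖resolvent A z‖) U)
    (hS : ∑' j, ∫⁻ z in U, ENNReal.ofReal (Real.log (1 + ‖resolvent A z (x j)‖)) ≠ ⊤)
    (hacc : (U ∩ {c | AccPt c (𝓟 (spectrum ℂ A))}).Nontrivial) :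
    GenericallyHyperinvariant A K := by
  obtain ⟨c₁, ⟨h1, h2⟩, c₂, ⟨h3, h4⟩, h5⟩ := hacc
  exact result A K f x hK hU h0 hI hS ⟨c₁, Pool.Agent.Y271.CO.acc_weyl A hU h0 h1 h2, h1⟩
    ⟨c₁, Pool.Agent.Y271.CO.acc_weyl A hU h0 h1 h2, c₂, Pool.Agent.Y271.CO.acc_weyl A hU h0 h3 h4, h5⟩

/-- Resolvents with power growth: the closed `δ`-neighbourhood of the spectrum of `A` has area
`O(δ^ε)`, the norm of `(z - A)⁻¹` is `O(dist(z, σ(A))^(-k))` on every disc, and `∑ ‖x j‖^s < ∞` with
`0 < s ≤ 1` and `s k < ε`. -/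
theorem powers {X : Type} [NormedAddCommGroup X] [NormedSpace ℂ X] [CompleteSpace X]
    (A K : X →L[ℂ] X) (f : ℕ → (X →L[ℂ] ℂ)) (x : ℕ → X) (hK : Represents K f x)
    (C k ε s : ℝ) (hk : 0 < k) (hε : 0 < ε) (hs0 : 0 < s) (hs1 : s ≤ 1) (hsk : s * k < ε)
    (hT : ∀ δ : ℝ, 0 < δ → δ ≤ 1 →
      volume {z : ℂ | infDist z (spectrum ℂ A) ≤ δ} ≤ ENNReal.ofReal (C * δ ^ ε))
    (hR : ∀ R : ℝ, ∃ C' : ℝ, ∀ z : ℂ, z ∉ spectrum ℂ A → ‖z‖ < R →
      ‖resolvent A z‖ ≤ C' * infDist z (spectrum ℂ A) ^ (-k))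
    (hx : Summable (fun j => ‖x j‖ ^ s)) (hw : (weyl A).Nontrivial) :
    GenericallyHyperinvariant A K := by
  obtain ⟨c, hc⟩ := hw.nonempty
  have hne : Nontrivial X := by
    by_contra hcon
    rw [not_nontrivial_iff_subsingleton] at hcon
    have h1 := hc 0 (by
      rw [show ((0 : X →L[ℂ] X) : X →ₗ[ℂ] X) = 0 from rfl, LinearMap.range_zero]
      infer_instance)
    have h2 : spectrum ℂ (A + 0) = ∅ := spectrum.of_subsingleton (R := ℂ) (A + 0)
    rw [h2] at h1
    exact h1
  obtain ⟨R, hRc⟩ : ∃ R : ℝ, R = ‖c‖ + 1 := ⟨_, rfl⟩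
  obtain ⟨C', hC'⟩ := hR R
  obtain ⟨C₀, hC₀⟩ : ∃ C₀ : ℝ, C₀ = max C C' := ⟨_, rfl⟩
  obtain ⟨g1, g2, g3⟩ := Pool.Agent.R276.NC.Pow.main X A x C₀ k ε s R hk hε hs0 hs1 hsk
    (fun δ h1 h2 => (hT δ h1 h2).trans (ENNReal.ofReal_le_ofReal
      (mul_le_mul_of_nonneg_right (hC₀ ▸ le_max_left _ _) (by positivity))))
    (fun z hz1 hz2 => (hC' z hz1 hz2).trans
      (mul_le_mul_of_nonneg_right (hC₀ ▸ le_max_right _ _)
        (Real.rpow_nonneg infDist_nonneg _))) hx
  exact result A K f x hK isOpen_ball g1 g2 g3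
    ⟨c, hc, by rw [mem_ball_zero_iff, hRc]; linarith⟩ hw

end Pool.Agent.Results.MP_5ac32f_an.NuclearCouplings
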