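import Pool.Agent.R276.CP.Fin
import Pool.Agent.R276.CP.Up
import Pool.Agent.R276.CP.Rs
import Pool.Agent.R276.CP.Pot
import Pool.Agent.R276.CP.Loc
import Pool.Agent.R276.CP.Fat
import Pool.Agent.R276.CP.Sec
import Pool.Agent.R276.CP.Had

/-!
# MP_5ac32f_an: hyperinvariant subspaces of Schatten class perturbations of normal operators

`N` normal on a complex Hilbert space, its spectrum of upper Minkowski dimension less than two, `K` in a
Schatten class `C_p` with `0 < p < 2`. For almost every complex `κ`, for almost every real `κ` and more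
generally almost everywhere for all measures with locally bounded logarithmic potential, the spectrum of
`N + κ K` is a null set, `log ‖(z - N - κ K)⁻¹‖` is locally integrable, and `N + κ K` is scalar or has a
nontrivial closed hyperinvariant subspace.

Proof. For a finite section `K_n x = ∑ ⟪e j, x⟫ u j` and `R = (z - N)⁻¹` the regularized determinant
`f(κ) = det (1 - κ G) exp (κ tr G)`, `G = ⟪e i, R u j⟫`, satisfies by Hadamard's inequality
`|f(κ)| ≤ exp (3 ∑ (|κ| ‖R u j‖)^p)`, since `(1 + 2x + b²) exp (-2x) ≤ exp (6 b^p)` for `|x| ≤ b`, and in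
the same way (bordered determinant) `‖(z - N - κ K_n)⁻¹‖ |f(κ)| ≤ 2 ‖R‖ exp (3 ∑ (|κ| ‖R u j‖)^p)`. As
`f(0) = 1`, the integral of `log⁺ (1/|f|)` for a measure with bounded logarithmic potential is at most
`C (1 + ∑ ‖R u j‖^p)` (zeros in a disc by the maximum principle, the zero-free part by
Borel-Caratheodory). The functions `z ↦ ‖(z - N)⁻¹ u‖^p` have local integrals at most `C ‖u‖^p`, since
`∫ dist(z, σ(N))^η ‖(z - N)⁻¹ u‖² ≤ C_η ‖u‖²` for every `η > 0` and `dist(z, σ(N))^(-c)` is locally
integrable for some `c > 0`. Fatou's lemma gives the estimate for `K`. Then the theorem on log-integrable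
resolvents of the starting library (`W610.HY`) applies if the spectrum has two points, and Lomonosov's
theorem if it has only one.

The parts of the formal proof were written by helpers 276 (Hadamard's inequality, statements, assembly),
999 (upper bound), 515 (resolvents), 422 (potentials), 746 (local integrals), 973 (Fatou) and 644 (finite
sections). `Y271.CO`, `W610.HY`, `W577.HI`, `W806.HI`, `Y891.NK`, `Y25.NK` belong to the starting library.
-/

set_option autoImplicit false

open MeasureTheory Metric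
open scoped InnerProductSpace ENNReal NNReal

namespace Pool.Agent.Results.MP_5ac32f_an.SchattenCouplings

/-- the upper Minkowski dimension of `E` is less than two: the closed `δ`-neighbourhood of `E` has area
at most `C δ^ε` for `0 < δ ≤ 1` -/
def Thin (E : Set ℂ) : Prop :=
  ∃ C ε : ℝ, 0 < ε ∧ ∀ δ : ℝ, 0 < δ → δ ≤ 1 →
    volume {z : ℂ | infDist z E ≤ δ} ≤ ENNReal.ofReal (C * δ ^ ε)

/-- The measure `m` has no atoms, and on every disc `|t| < R` it is finite and
`∫ log⁺ (1 / |t - s|) dm(t)` is bounded in `s ∈ ℂ`. -/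
def BoundedPotential (m : Measure ℂ) : Prop :=
  (∀ s : ℂ, m {s} = 0) ∧
  ∀ R : ℝ, m (ball (0:ℂ) R) ≠ ⊤ ∧ ∃ C : ℝ≥0, ∀ s : ℂ,
    ∫⁻ t in ball (0:ℂ) R, ENNReal.ofReal (Real.posLog ‖t - s‖⁻¹) ∂m ≤ C

section Defs

variable {H : Type} [NormedAddCommGroup H] [InnerProductSpace ℂ H]

/-- `K` is in the Schatten class `C_p`, `0 < p ≤ 2`: for some orthonormal basis `b` of `H` the sum of
the numbers `‖K b_i‖ ^ p` is finite. -/
def Schatten (K : H →L[ℂ] H) (p : ℝ) : Prop :=
  ∃ (ι : Type) (b : HilbertBasis ι ℂ H), Summable fun i => ‖K (b i)‖ ^ p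

/-- `T` is a multiple of the identity. -/
def IsScalar (T : H →L[ℂ] H) : Prop := ∃ c : ℂ, T = c • (1 : H →L[ℂ] H)

/-- `T` has a closed subspace, neither `{0}` nor the whole space, which is invariant under every
bounded operator commuting with `T`. -/
def HasHyperinvariant (T : H →L[ℂ] H) : Prop :=
  ∃ V : Submodule ℂ H, IsClosed (V : Set H) ∧ V ≠ ⊥ ∧ V ≠ ⊤ ∧
    ∀ Q : H →L[ℂ] H, Q * T = T * Q → ∀ x ∈ V, Q x ∈ V

/-- the spectrum of `T` is a null set and `log⁺ ‖(z - T)⁻¹‖` is integrable on every disc -/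
def LogIntegrable [CompleteSpace H] (T : H →L[ℂ] H) : Prop :=
  volume (spectrum ℂ T) = 0 ∧
  ∀ R : ℝ, IntegrableOn (fun z : ℂ => Real.posLog ‖resolvent T z‖) (ball 0 R)

/-- The conclusion of the theorem for one operator. -/
def Good [CompleteSpace H] (T : H →L[ℂ] H) : Prop :=
  LogIntegrable T ∧ (IsScalar T ∨ HasHyperinvariant T)

end Defs

/-- **Schatten class perturbations of normal operators with thin spectrum.** Let `N` be normal on a
Hilbert space, let its spectrum have upper Minkowski dimension less than two, and let `K` be in the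
Schatten class `C_p`, `0 < p < 2`. Then `N + κ K` has a null spectrum and a locally log-integrable
resolvent, and is scalar or has a nontrivial hyperinvariant subspace, for almost every `κ` with respect
to every atomless measure with bounded logarithmic potential, in particular for almost every complex
and for almost every real `κ`. -/
theorem result (H : Type) [NormedAddCommGroup H] [InnerProductSpace ℂ H] [CompleteSpace H]
    (N K : H →L[ℂ] H) (p : ℝ) (hN : IsStarNormal N) (ht : Thin (spectrum ℂ N))
    (hp0 : 0 < p) (hp2 : p < 2) (hK : Schatten K p) :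
    (∀ m : Measure ℂ, BoundedPotential m → ∀ᵐ κ ∂m, Good (N + κ • K)) ∧
    (∀ᵐ κ : ℂ, Good (N + κ • K)) ∧
    (∀ᵐ κ : ℝ, Good (N + (κ : ℂ) • K)) := by
  have main : ∀ m : Measure ℂ, Pool.Agent.R276.CP.LogBd m → ∀ᵐ κ ∂m, Good (N + κ • K) := by
    intro m hm
    have hS : Pool.Agent.R276.CP.Sections K p :=
      Pool.Agent.R276.CP.Sec.main H K p hp0 hp2.le hK
    obtain ⟨hKc, -⟩ := Pool.Agent.R276.CP.Fin.compact_of_sections hS
    filter_upwards [Pool.Agent.R276.CP.Fin.ae_logInt
      (Pool.Agent.R276.CP.Fat.main (Pool.Agent.R276.CP.Up.main Pool.Agent.R276.CP.Had.main)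
        (Pool.Agent.R276.CP.Rs.main Pool.Agent.R276.CP.Had.main) Pool.Agent.R276.CP.Pot.main)
      Pool.Agent.R276.CP.Sec.main Pool.Agent.R276.CP.Loc.main N K hN ht p hp0 hp2 hK m hm] with κ h
    refine ⟨⟨?_, fun R => ?_⟩, Pool.Agent.R276.CP.Fin.hyper N (κ • K) hN (hKc.smul κ) h⟩
    · have h1 : spectrum ℂ (N + κ • K) = ⋃ R : ℕ, spectrum ℂ (N + κ • K) ∩ ball 0 (R : ℝ) := by
        rw [← Set.inter_iUnion, iUnion_ball_nat, Set.inter_univ]
      rw [h1]
      exact measure_iUnion_null fun R => (h R).1
    · obtain ⟨n, hn⟩ := exists_nat_gt R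
      exact (h n).2.mono_set (ball_subset_ball hn.le)
  refine ⟨?_, ?_, ?_⟩
  · intro m hm
    refine main m fun R => ?_
    obtain ⟨h0, hm⟩ := hm
    obtain ⟨h1, C, hC⟩ := hm R
    refine ⟨C + (m (ball (0:ℂ) R)).toNNReal, ?_, fun s => ?_⟩
    · rw [ENNReal.coe_add, ENNReal.coe_toNNReal h1]
      exact le_add_self
    · calc ∫⁻ t in ball (0:ℂ) R, Pool.Agent.R276.CP.lm ‖t - s‖ ∂m
          = ∫⁻ t in ball (0:ℂ) R, ENNReal.ofReal (Real.posLog ‖t - s‖⁻¹) ∂m := by
            refine lintegral_congr_ae (ae_restrict_of_ae ?_)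
            have h2 : ∀ᵐ t ∂m, t ≠ s := by
              rw [ae_iff]
              simpa using h0 s
            filter_upwards [h2] with t ht
            unfold Pool.Agent.R276.CP.lm
            rw [if_neg (by simpa [sub_eq_zero] using ht)]
        _ ≤ C := hC s
        _ ≤ _ := by rw [ENNReal.coe_add]; exact le_self_add
  · exact main volume Pool.Agent.Y891.NK.main_vol.1
  · have h := main (Measure.map (fun t : ℝ => (t : ℂ)) volume) Pool.Agent.Y891.NK.main_vol.2
    exact ae_of_ae_map Complex.continuous_ofReal.measurable.aemeasurable h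

end Pool.Agent.Results.MP_5ac32f_an.SchattenCouplings
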