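import Pool.Agent.R276.SI.Fin
import Pool.Agent.R276.SI.Alg
import Pool.Agent.R276.SI.Ess
import Pool.Agent.R276.SI.Fac

/-!
# MP_5ac32f_an: hyperinvariant subspaces of singular integral operators

Let `X` be a complex Banach space of functions on the circle `ℝ/ℤ` on which the continuous functions act by
multiplication and on which the Riesz projection `P` (onto the nonnegative frequencies) is bounded, for
instance `L^p` with `1 < p < ∞`, also with Muckenhoupt weights. Let `a` and `b` be Hölder continuous with exponents
greater than one half. Then the singular integral operator `a P + b (1 - P)` (that is `(a + b) / 2 + ((a - b) / 2) S` with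
the Hilbert transform `S = 2 P - 1`) is scalar or has a nontrivial closed hyperinvariant subspace.

Proof. Let `z` be off the curves `a(𝕋)` and `b(𝕋)`. The quotient `(a - z) / (b - z)` has a factorisation
`ζ^k exp u exp v` with `u` analytic and `v` coanalytic and with absolutely summable Fourier coefficients. If `k < 0`
then `exp (-u) - ζ^k exp v` is an eigenvector of `A = a P + b (1 - P)` for the eigenvalue `z`, if `k > 0` then the mean of
`exp (-v) (b - z)⁻¹ f` is an eigenfunctional, and if `k = 0` then the inverse of `A - z` is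
`(exp (-u) P + exp v (1 - P)) exp (-v) (b - z)⁻¹`. The norms of `u` and `v` are bounded by the estimates of the
starting library (`Y283.TO`, Toeplitz operators), which are locally integrable in `z`. So without eigenvectors the
resolvent is locally log-integrable, the spectrum is a null set, and it contains the two curves. So
the theorem on log-integrable resolvents of the starting library (`W610.HY`) applies.

The parts of the formal proof were written by helpers 515 (algebra), 743 (spectrum), 159 (factorisation)
and 276 (idea, statements, assembly).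
-/

set_option autoImplicit false

open scoped NNReal

namespace Pool.Agent.Results.MP_5ac32f_an.SingularIntegrals

/-- `X` is a Banach space of functions on the circle `ℝ/ℤ`: `e n` are the exponentials `exp (2πint)`, their
span is dense, `ε₀` is the mean, `M a` is the multiplication by the continuous function `a`, and `P` is the
Riesz projection, the bounded operator with `P (e n) = e n` for `n ≥ 0` and `P (e n) = 0` for `n < 0`. -/
structure CircleSpace {X : Type} [NormedAddCommGroup X] [NormedSpace ℂ X] (e : ℤ → X)
    (ε₀ : X →L[ℂ] ℂ) (M : C(UnitAddCircle, ℂ) → (X →L[ℂ] X)) (P : X →L[ℂ] X) : Prop where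
  dense : Dense (Submodule.span ℂ (Set.range e) : Set X)
  mean : ∀ n : ℤ, ε₀ (e n) = if n = 0 then 1 else 0
  add : ∀ a b, M (a + b) = M a + M b
  smul : ∀ (c : ℂ) (a : C(UnitAddCircle, ℂ)), M (c • a) = c • M a
  one : M 1 = 1
  mul : ∀ a b, M (a * b) = M a * M b
  bounded : ∃ K : ℝ, ∀ a, ‖M a‖ ≤ K * ‖a‖
  shift : ∀ m n : ℤ, M (fourier m) (e n) = e (n + m)
  riesz : ∀ n : ℤ, P (e n) = if 0 ≤ n then e n else 0

/-- `T` has a closed hyperinvariant subspace, different from `0` and from the whole space. -/
def HasHyperinvariant {X : Type} [NormedAddCommGroup X] [NormedSpace ℂ X] (T : X →L[ℂ] X) : Prop :=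
  ∃ W : Submodule ℂ X, IsClosed (W : Set X) ∧ W ≠ ⊥ ∧ W ≠ ⊤ ∧
    ∀ Q : X →L[ℂ] X, Q * T = T * Q → ∀ f ∈ W, Q f ∈ W

theorem HD_mono (f : ℝ → ℂ) (L q L' q' : ℝ) (hL : 0 < L) (hq : 0 ≤ q) (hL' : L ≤ L') (hq' : q ≤ q')
    (h : Pool.Agent.Y283.TO.HD f L q) : Pool.Agent.Y283.TO.HD f L' q' := by
  intro n s t hst
  refine (h n s t hst).trans ?_
  have h1 : q ^ n ≤ q' ^ n := pow_le_pow_left₀ hq hq' n
  have h2 : 0 ≤ q ^ n := pow_nonneg hq n
  exact mul_le_mul hL' h1 h2 (hL.le.trans hL')

/-- **Singular integral operators with Hölder coefficients of exponents greater than `1/2` have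
hyperinvariant subspaces.** Let `X` be a Banach space of functions on the circle as in `CircleSpace`, let `a` and `b`
be Hölder continuous functions on the circle with exponents greater than `1/2`. Then the operator
`f ↦ a (P f) + b (f - P f)` is a scalar multiple of the identity or has a closed hyperinvariant subspace other
than `0` and `X`. -/
theorem result (X : Type) [NormedAddCommGroup X] [NormedSpace ℂ X] [CompleteSpace X] (e : ℤ → X)
    (ε₀ : X →L[ℂ] ℂ) (M : C(UnitAddCircle, ℂ) → (X →L[ℂ] X)) (P : X →L[ℂ] X)
    (hX : CircleSpace e ε₀ M P) (a b : C(UnitAddCircle, ℂ)) (Ca α Cb β : ℝ≥0)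
    (hα : 1 / 2 < α) (hβ : 1 / 2 < β) (ha : HolderWith Ca α a) (hb : HolderWith Cb β b) :
    (∃ c : ℂ, M a * P + M b * (1 - P) = c • (1 : X →L[ℂ] X)) ∨
      HasHyperinvariant (M a * P + M b * (1 - P)) := by
  obtain ⟨L, q, hL, hq, hq2, hHD⟩ := Pool.Agent.Y283.TO.HD_of_holder a Ca α hα ha
  obtain ⟨L', q', hL', hq', hq2', hHD'⟩ := Pool.Agent.Y283.TO.HD_of_holder b Cb β hβ hb
  have h : Pool.Agent.R276.SI.SIO e ε₀ M P := by
    refine ⟨hX.dense, hX.add, hX.smul, hX.one, hX.mul, ?_, hX.shift, hX.riesz, hX.mean⟩
    obtain ⟨K, hK⟩ := hX.bounded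
    exact ⟨max K 0, le_max_right _ _, fun f =>
      (hK f).trans (mul_le_mul_of_nonneg_right (le_max_left _ _) (norm_nonneg _))⟩
  refine Pool.Agent.R276.SI.Fin.main Pool.Agent.R276.SI.Alg.main Pool.Agent.R276.SI.Ess.main
    Pool.Agent.R276.SI.Fac.main h a b (max L L') (max q q') (lt_max_of_lt_left hL)
    (le_max_of_le_left hq) ?_ ?_ ?_
  · rcases max_choice q q' with h1 | h1
    · rw [h1]; exact hq2
    · rw [h1]; exact hq2'
  · exact HD_mono _ L q _ _ hL (by linarith) (le_max_left _ _) (le_max_left _ _) hHD
  · exact HD_mono _ L' q' _ _ hL' (by linarith) (le_max_right _ _) (le_max_right _ _) hHD'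

end Pool.Agent.Results.MP_5ac32f_an.SingularIntegrals
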