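import Pool.Agent.R276.TH.Gen
import Pool.Agent.R276.TH.AV
import Pool.Agent.R276.TH.AE
import Pool.Agent.R276.TH.AK
import Pool.Agent.R276.TH.ESS
import Pool.Agent.R276.TH.L2

/-!
# MP_5ac32f_an: hyperinvariant subspaces of Toeplitz plus Hankel operators

Let `a` be a Hölder continuous function on the circle with exponent greater than one half. Then the Toeplitz plus
Hankel operators with the matrices `(â(i - j) + κ â(i + j + s))`, where `(s, κ)` is `(1, 1)`, `(1, -1)` or
`(2, -1)`, are scalar or have a nontrivial closed hyperinvariant subspace: on `ℓ²(ℕ)`, and more generally on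
each Banach space with a system `e n` on which the Toeplitz and Hankel operators with continuous symbols are
bounded (for instance the Hardy spaces `H^p`, `1 < p < ∞`).

Proof. Write `A a` for the operator with symbol `a`. Then `A (v f) = A v A f` for coanalytic `v` and `A (f g) = A f A g` for
even `g`. Let `z` be off the curve `a(𝕋)`. Then `a - z` is `ζ^k exp u exp v` with `u` analytic and `v` coanalytic with
absolutely summable coefficients, so with the reflection `ũ` of `u` it is `exp (v - ũ) ζ^k exp (u + ũ)`, a product of a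
coanalytic factor, `ζ^k` and an even factor. If `k < 0` then `A (exp (-u-ũ)) e₀` is an eigenvector for `z`, if `k > 0` then
there is an eigenfunctional, and if `k = 0` then `A (exp (-u-ũ)) A (exp (ũ-v))` is the inverse of `A a - z`. The norms of
`u` and `v` are bounded by the estimates of the starting library (`Y283.TO`, Toeplitz operators), which are locally
integrable in `z`. So without eigenvectors the resolvent is locally log-integrable, the spectrum is a null set, and it
contains the curve. So the theorem on log-integrable resolvents of the starting library (`W610.HY`) applies.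

The parts of the formal proof were written by helpers 372 (algebra), 700 (cokernel), 611 (spectrum), 861 (operators on
`ℓ²(ℕ)`) and 276 (idea, statements, assembly).
-/

set_option autoImplicit false

open scoped NNReal

namespace Pool.Agent.Results.MP_5ac32f_an.ToeplitzPlusHankel

/-- `Y` is a Banach space with vectors `e n` (`n ≥ 0`) of dense span, `ε₀` is the coordinate functional of `e 0`,
`T a` is the Toeplitz operator and `H a` the Hankel operator with the continuous symbol `a` on the circle `ℝ/ℤ`: the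
maps `T`, `H` are linear and bounded, and for the exponential `fourier m` of frequency `m` one has
`T (fourier m) (e n) = e (m + n)` and `H (fourier m) (e n) = e (m - n - 1)`, where `e j` is read as `0` for `j < 0`. -/
structure ToeplitzHankel {Y : Type} [NormedAddCommGroup Y] [NormedSpace ℂ Y] (e : ℕ → Y)
    (ε₀ : Y →L[ℂ] ℂ) (T H : C(UnitAddCircle, ℂ) → (Y →L[ℂ] Y)) : Prop where
  dense : Dense (Submodule.span ℂ (Set.range e) : Set Y)
  coord : ∀ n : ℕ, ε₀ (e n) = if n = 0 then 1 else 0
  T_add : ∀ a b, T (a + b) = T a + T b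
  T_smul : ∀ (c : ℂ) (a : C(UnitAddCircle, ℂ)), T (c • a) = c • T a
  H_add : ∀ a b, H (a + b) = H a + H b
  H_smul : ∀ (c : ℂ) (a : C(UnitAddCircle, ℂ)), H (c • a) = c • H a
  bounded : ∃ K : ℝ, ∀ a, ‖T a‖ ≤ K * ‖a‖ ∧ ‖H a‖ ≤ K * ‖a‖
  T_exp : ∀ (m : ℤ) (n : ℕ), T (fourier m) (e n) = if 0 ≤ m + n then e (m + n).toNat else 0
  H_exp : ∀ (m : ℤ) (n : ℕ),
    H (fourier m) (e n) = if 0 ≤ m - n - 1 then e (m - n - 1).toNat else 0

/-- `T` has a closed hyperinvariant subspace, different from `0` and from the whole space. -/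
def HasHyperinvariant {Y : Type} [NormedAddCommGroup Y] [NormedSpace ℂ Y] (T : Y →L[ℂ] Y) : Prop :=
  ∃ W : Submodule ℂ Y, IsClosed (W : Set Y) ∧ W ≠ ⊥ ∧ W ≠ ⊤ ∧
    ∀ Q : Y →L[ℂ] Y, Q * T = T * Q → ∀ f ∈ W, Q f ∈ W

/-- `T` is a scalar multiple of the identity or has a nontrivial closed hyperinvariant subspace. -/
def ScalarOrHyperinvariant {Y : Type} [NormedAddCommGroup Y] [NormedSpace ℂ Y] (T : Y →L[ℂ] Y) :
    Prop :=
  (∃ c : ℂ, T = c • (1 : Y →L[ℂ] Y)) ∨ HasHyperinvariant T

/-- The three families of Toeplitz plus Hankel operators. -/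
def Admissible (s : ℤ) (κ : ℂ) : Prop := (s = 1 ∧ (κ = 1 ∨ κ = -1)) ∨ (s = 2 ∧ κ = -1)

/-- The space `ℓ²(ℕ)`. -/
abbrev Seq : Type := lp (fun _ : ℕ => ℂ) 2

/-- The matrix entry at `(i, j)` of an operator on `ℓ²(ℕ)`. -/
noncomputable def entry (B : Seq →L[ℂ] Seq) (i j : ℕ) : ℂ :=
  (B (lp.single 2 j (1 : ℂ)) : ℕ → ℂ) i

/-- The statement for `ℓ²(ℕ)`: a bounded operator with the matrix `φ̂(i - j) + κ φ̂(i + j + s)`, where `φ` is Hölder
continuous on the circle with exponent greater than `1/2`, is scalar or has a nontrivial hyperinvariant subspace. -/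
def SequenceCase (s : ℤ) (κ : ℂ) : Prop :=
  ∀ (φ : UnitAddCircle → ℂ) (C α : ℝ≥0), 1 / 2 < α → HolderWith C α φ → ∀ B : Seq →L[ℂ] Seq,
    (∀ i j : ℕ, entry B i j =
      fourierCoeff φ ((i : ℤ) - j) + κ * fourierCoeff φ ((i : ℤ) + j + s)) →
    ScalarOrHyperinvariant B

/-- The statement for Banach spaces as in `ToeplitzHankel`: if `a` is Hölder continuous on the circle with exponent
greater than `1/2` then `T a + κ H (ζ^(1 - s) a)` is scalar or has a nontrivial hyperinvariant subspace. -/
def BanachCase (s : ℤ) (κ : ℂ) : Prop :=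
  ∀ (Y : Type) [NormedAddCommGroup Y] [NormedSpace ℂ Y] [CompleteSpace Y] (e : ℕ → Y)
    (ε₀ : Y →L[ℂ] ℂ) (T H : C(UnitAddCircle, ℂ) → (Y →L[ℂ] Y)), ToeplitzHankel e ε₀ T H →
    ∀ (a : C(UnitAddCircle, ℂ)) (C α : ℝ≥0), 1 / 2 < α → HolderWith C α a →
      ScalarOrHyperinvariant (T a + κ • H (fourier (1 - s) * a))

/-- **Toeplitz plus Hankel operators with Hölder symbols of exponent greater than `1/2` have
hyperinvariant subspaces.** Let `(s, κ)` be `(1, 1)`, `(1, -1)` or `(2, -1)`.
1. Let `φ` be Hölder continuous on the circle with exponent greater than `1/2` and let `B` be a bounded operator on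
`ℓ²(ℕ)` with the matrix `φ̂(i - j) + κ φ̂(i + j + s)`. Then `B` is a scalar multiple of the identity or has a closed
hyperinvariant subspace other than `0` and `ℓ²(ℕ)`.
2. The same holds for the operator `T a + κ H (ζ^(1 - s) a)` on every Banach space as in `ToeplitzHankel`, where `a` is
Hölder continuous with exponent greater than `1/2`. -/
theorem result (s : ℤ) (κ : ℂ) (hκ : Admissible s κ) : SequenceCase s κ ∧ BanachCase s κ := by
  refine ⟨fun φ C α hα hφ B hB => ?_, fun Y _ _ _ e ε₀ T H h a C α hα ha => ?_⟩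
  · have hα0 : 0 < α := lt_trans (by norm_num) hα
    exact Pool.Agent.R276.TH.Gen.conc Pool.Agent.R276.TH.AV.main Pool.Agent.R276.TH.AE.main
      Pool.Agent.R276.TH.AK.main Pool.Agent.R276.TH.ESS.main Pool.Agent.R276.SI.Fac.main
      Pool.Agent.R276.TH.L2.main hκ ⟨φ, hφ.continuous hα0⟩ C α hα hφ B hB
  · have h' : Pool.Agent.R276.TH.THS e ε₀ T H 1 := by
      refine ⟨h.dense, h.T_add, h.T_smul, h.H_add, h.H_smul, ?_, h.T_exp, h.H_exp, h.coord⟩
      obtain ⟨K, hK⟩ := h.bounded
      refine ⟨max K 0, le_max_right _ _, fun f => ⟨?_, ?_⟩⟩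
      · exact (hK f).1.trans (mul_le_mul_of_nonneg_right (le_max_left _ _) (norm_nonneg _))
      · exact (hK f).2.trans (mul_le_mul_of_nonneg_right (le_max_left _ _) (norm_nonneg _))
    exact Pool.Agent.R276.TH.Gen.gen Pool.Agent.R276.TH.AV.main Pool.Agent.R276.TH.AE.main
      Pool.Agent.R276.TH.AK.main Pool.Agent.R276.TH.ESS.main Pool.Agent.R276.SI.Fac.main h' hκ a C α
      hα ha

end Pool.Agent.Results.MP_5ac32f_an.ToeplitzPlusHankel
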